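import Pool.Agent.Helper68.BU.Defs2

/-!
# Sections of bounded degree, uniformly, block BU10a: heights of the coefficients, uniform Liouville
-/

set_option autoImplicit false
set_option linter.unusedSectionVars false

namespace Pool.Agent.SQ

open NumberField Filter Module MvPolynomial
open Pool.Agent.Helper64.Vojta (Pl nv sn above)
open Pool.Agent.V2
open Pool.Agent.Chart (fld dg crd hgt)

universe u

section

variable {k : Type u} [Field k] [NumberField k] {G : Type*} [Group G] [Fintype G]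

section

variable {L : Type u} [Field L] [Algebra k L] {s : G →* (L ≃ₐ[k] L)} {N : Pl k → L → ℝ} (h : QSG s N)

include h

private theorem N_one_u64 (v : Pl k) : N v 1 = 1 := by
  have h1 := h.ext v 1
  rwa [map_one, Pool.Agent.Helper64.Vojta.nv_one] at h1

private theorem N_nonneg_u64 (v : Pl k) (x : L) : 0 ≤ N v x := by
  by_cases hx : x = 0
  · rw [hx, h.zero v]
  · exact (h.pos v x hx).le

private theorem N_pow_u64 (v : Pl k) (x : L) (n : ℕ) : N v (x ^ n) = N v x ^ n := by
  induction n with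
  | zero => rw [pow_zero, pow_zero, N_one_u64 h v]
  | succ n ih => rw [pow_succ, pow_succ, h.mul, ih]

private theorem N_prod_u64 {ι : Type*} (v : Pl k) (t : Finset ι) (x : ι → L) : N v (∏ i ∈ t, x i) = ∏ i ∈ t, N v (x i) := by
  classical
  induction t using Finset.induction_on with
  | empty => rw [Finset.prod_empty, Finset.prod_empty, N_one_u64 h v]
  | insert a t ha ih => rw [Finset.prod_insert ha, Finset.prod_insert ha, h.mul, ih]

private theorem finS_max_u64 (x : L) : FinS fun v => Real.log (max 1 (N v x)) := by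
  by_cases hx : x = 0
  · have h1 : (fun v => Real.log (max 1 (N v x))) = fun _ => (0 : ℝ) := by
      funext v
      rw [hx, h.zero v, max_eq_left zero_le_one, Real.log_one]
    rw [h1]
    exact FinS.zero
  · refine Set.Finite.subset (h.fin x hx) fun v hv => ?_
    rw [Function.mem_support] at hv ⊢
    intro h1
    apply hv
    have h2 : N (.inr v) x = 1 := by
      rcases Real.log_eq_zero.1 h1 with h3 | h3 | h3
      · exact absurd h3 (h.pos _ x hx).ne'
      · exact h3
      · have := h.pos (.inr v) x hx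
        linarith
    show Real.log (max 1 (N (.inr v) x)) = 0
    rw [h2, max_self, Real.log_one]

private theorem le_mxn_u64 {ι : Type*} [Finite ι] (v : Pl k) (X : ι → L) (a : ι) : N v (X a) ≤ mxn (N v) X :=
  le_ciSup (Set.finite_range fun a => N v (X a)).bddAbove a

private theorem mxn_nonneg_u64 {ι : Type*} (v : Pl k) (X : ι → L) : 0 ≤ mxn (N v) X :=
  Real.iSup_nonneg fun a => N_nonneg_u64 h v (X a)

private theorem mxn_one_u64 {ι : Type*} [Finite ι] (v : Pl k) (X : ι → L) (a : ι) (ha : X a = 1) : 1 ≤ mxn (N v) X := by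
  have h1 := le_mxn_u64 h v X a
  rwa [ha, N_one_u64 h v] at h1

private theorem finS_mxn_u64 {ι : Type*} [Finite ι] (X : ι → L) (a : ι) (ha : X a = 1) :
    FinS fun v => Real.log (mxn (N v) X) := by
  classical
  have : Fintype ι := Fintype.ofFinite ι
  have h1 : FinS fun v => ∑ a, Real.log (max 1 (N v (X a))) := FinS.sum _ fun a _ => finS_max_u64 h (X a)
  refine Set.Finite.subset h1 fun v hv => ?_
  rw [Function.mem_support] at hv ⊢
  intro h2
  apply hv
  have h3 : ∀ b, N (.inr v) (X b) ≤ 1 := by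
    intro b
    have h4 := (Finset.sum_eq_zero_iff_of_nonneg fun a _ => Real.log_nonneg (le_max_left 1 (N (.inr v) (X a)))).1 h2 b
      (Finset.mem_univ b)
    by_contra h5
    rw [not_le] at h5
    rw [max_eq_right h5.le] at h4
    exact absurd h4 (Real.log_pos h5).ne'
  have : Nonempty ι := ⟨a⟩
  have h6 : mxn (N (.inr v)) X = 1 := le_antisymm (ciSup_le h3) (mxn_one_u64 h _ X a ha)
  show Real.log (mxn (N (.inr v)) X) = 0
  rw [h6, Real.log_one]

private theorem sum_le_inr_u64 {ι : Type*} (v : FinitePlace k) (t : Finset ι) (f : ι → L) (B : ℝ) (hB : 0 ≤ B)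
    (hf : ∀ i ∈ t, N (.inr v) (f i) ≤ B) : N (.inr v) (∑ i ∈ t, f i) ≤ B := by
  classical
  induction t using Finset.induction_on with
  | empty => rw [Finset.sum_empty, h.zero]; exact hB
  | insert a t ha ih =>
    rw [Finset.sum_insert ha]
    exact (h.ult v _ _).trans (max_le (hf a (Finset.mem_insert_self _ _))
      (ih fun i hi => hf i (Finset.mem_insert_of_mem hi)))

private theorem sum_le_u64 {ι : Type*} (v : Pl k) (t : Finset ι) (f : ι → L) (B : ℝ) (hB : 0 ≤ B)
    (hf : ∀ i ∈ t, N v (f i) ≤ B) : N v (∑ i ∈ t, f i) ≤ 4 ^ t.card * B := by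
  classical
  induction t using Finset.induction_on with
  | empty =>
    rw [Finset.sum_empty, h.zero, Finset.card_empty, pow_zero, one_mul]
    exact hB
  | insert a t ha ih =>
    rw [Finset.sum_insert ha, Finset.card_insert_of_notMem ha, pow_succ]
    have h1 := ih fun i hi => hf i (Finset.mem_insert_of_mem hi)
    have h2 := hf a (Finset.mem_insert_self _ _)
    have h3 : B ≤ 4 ^ t.card * B := le_mul_of_one_le_left hB (one_le_pow₀ (by norm_num))
    have h4 := h.add v (f a) (∑ i ∈ t, f i)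
    have h5 : max (N v (f a)) (N v (∑ i ∈ t, f i)) ≤ 4 ^ t.card * B := max_le (h2.trans h3) h1
    linarith

end

/-- the local constant -/
private noncomputable def lc_u64 (k : Type u) [Field k] [NumberField k] (m : ℕ) (v : Pl k) : ℝ :=
  match v with
    | .inl _ => (m : ℝ) * Real.log 4
    | .inr _ => 0

private theorem lc_finS_u64 (m : ℕ) : FinS (lc_u64 k m) := by
  unfold FinS lc_u64
  simp

private theorem lc_nonneg_u64 (m : ℕ) (v : Pl k) : 0 ≤ lc_u64 k m v := by
  rcases v with v | v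
  · exact mul_nonneg (Nat.cast_nonneg _) (Real.log_nonneg (by norm_num))
  · exact le_refl _

section

variable {N d q : ℕ}

private theorem le_mxk_u64 (c : Fin q × Mns N d → k) (i : Fin q) (v : Pl k) (μ : Mns N d) :
    nv v (c (i, μ)) ≤ mxn (nv v) fun μ : Mns N d => c (i, μ) :=
  le_ciSup (Set.finite_range fun μ : Mns N d => nv v (c (i, μ))).bddAbove μ

theorem mxn_one_le {c : Fin q × Mns N d → k} {i : Fin q} (hc : ∃ μ, c (i, μ) = 1) (v : Pl k) :
    1 ≤ mxn (nv v) fun μ : Mns N d => c (i, μ) := by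
  obtain ⟨μ, hμ⟩ := hc
  have h1 := le_mxk_u64 c i v μ
  rwa [hμ, Pool.Agent.Helper64.Vojta.nv_one] at h1

private theorem finS_mxk_u64 {c : Fin q × Mns N d → k} {i : Fin q} (hc : ∃ μ, c (i, μ) = 1) :
    FinS fun v : Pl k => Real.log (mxn (nv v) fun μ : Mns N d => c (i, μ)) := by
  classical
  have h1 : FinS fun v : Pl k => ∑ μ : Mns N d, Real.log (max 1 (nv v (c (i, μ)))) := by
    refine FinS.sum _ fun μ _ => ?_
    by_cases hj : c (i, μ) = 0
    · have h1 : (fun v : Pl k => Real.log (max 1 (nv v (c (i, μ))))) = fun _ => (0 : ℝ) := by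
        funext v
        rw [hj, Pool.Agent.Helper64.Vojta.nv_zero, max_eq_left zero_le_one, Real.log_one]
      rw [h1]
      exact FinS.zero
    · refine Set.Finite.subset (finS_nv hj) fun v hv => ?_
      rw [Function.mem_support] at hv ⊢
      intro h1
      apply hv
      have h0 : 0 < nv (.inr v : Pl k) (c (i, μ)) := Pool.Agent.Helper64.Vojta.nv_pos _ hj
      have h2 : nv (.inr v : Pl k) (c (i, μ)) = 1 := by
        rcases Real.log_eq_zero.1 h1 with h3 | h3 | h3
        · exact absurd h3 h0.ne'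
        · exact h3
        · linarith
      show Real.log (max 1 (nv (.inr v) (c (i, μ)))) = 0
      rw [h2, max_self, Real.log_one]
  refine Set.Finite.subset h1 fun v hv => ?_
  rw [Function.mem_support] at hv ⊢
  intro h2
  apply hv
  have h3 : ∀ μ : Mns N d, nv (.inr v : Pl k) (c (i, μ)) ≤ 1 := by
    intro μ
    have h4 := (Finset.sum_eq_zero_iff_of_nonneg fun (μ : Mns N d) _ =>
      Real.log_nonneg (le_max_left 1 (nv (.inr v : Pl k) (c (i, μ))))).1 h2 μ (Finset.mem_univ μ)
    by_contra h5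
    rw [not_le] at h5
    rw [max_eq_right h5.le] at h4
    exact absurd h4 (Real.log_pos h5).ne'
  have : Nonempty (Mns N d) := ⟨hc.choose⟩
  have h6 : mxn (nv (.inr v : Pl k)) (fun μ : Mns N d => c (i, μ)) = 1 := le_antisymm (ciSup_le h3) (mxn_one_le hc _)
  show Real.log (mxn (nv (.inr v : Pl k)) fun μ : Mns N d => c (i, μ)) = 0
  rw [h6, Real.log_one]

private theorem logmx_nonneg_u64 {c : Fin q × Mns N d → k} {i : Fin q} (hc : ∃ μ, c (i, μ) = 1) (v : Pl k) :
    0 ≤ Real.log (mxn (nv v) fun μ : Mns N d => c (i, μ)) :=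
  Real.log_nonneg (mxn_one_le hc v)

theorem hcf_nonneg {c : Fin q × Mns N d → k} {i : Fin q} (hc : ∃ μ, c (i, μ) = 1) : 0 ≤ hcf c i :=
  gsum_nonneg (logmx_nonneg_u64 hc)

theorem sum_le_hcf {c : Fin q × Mns N d → k} {i : Fin q} (hc : ∃ μ, c (i, μ) = 1) (S : Finset (Pl k)) :
    ∑ v ∈ S, Real.log (mxn (nv v) fun μ : Mns N d => c (i, μ)) ≤ hcf c i :=
  sum_le_gsum (finS_mxk_u64 hc) (logmx_nonneg_u64 hc) S

theorem htg_le_hcf {G : Type} [Group G] [Fintype G] {L : Type u} [Field L] [Algebra k L] {s : G →* (L ≃ₐ[k] L)}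
    {M : Pl k → L → ℝ} (h : QSG s M) {c : Fin q × Mns N d → k} {i : Fin q} (hc : ∃ μ, c (i, μ) = 1) (μ : Mns N d) :
    htg s M (algebraMap k L (c (i, μ))) ≤ Fintype.card G * hcf c i := by
  unfold hcf
  rw [← gsum_const_mul]
  unfold htg
  refine gsum_mono (htg_finS h _) ((finS_mxk_u64 hc).const_mul _) fun v => ?_
  rw [← nsmul_eq_mul, ← Finset.card_univ, ← Finset.sum_const]
  refine Finset.sum_le_sum fun g _ => ?_
  rw [AlgEquiv.commutes, h.ext]
  exact Real.log_le_log (lt_max_of_lt_left one_pos) (max_le (mxn_one_le hc v) (le_mxk_u64 c i v μ))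

end

/-- a linear combination of bounded terms -/
private theorem comb_le_u64 {L : Type u} [Field L] [Algebra k L] {s : G →* (L ≃ₐ[k] L)} {N : Pl k → L → ℝ} (h : QSG s N)
    {τ : Type*} [Fintype τ] (A : ℝ) (hA : 0 ≤ A) (c : τ → k) (y : τ → L) (v : Pl k) (hc : ∀ t, nv v (c t) ≤ A)
    (B : ℝ) (hB : 0 ≤ B) (hy : ∀ j, N v (y j) ≤ B) :
    N v (∑ j, algebraMap k L (c j) * y j) ≤ Real.exp (lc_u64 k (Fintype.card τ) v) * (A * B) := by
  classical
  have hterm : ∀ j ∈ Finset.univ, N v (algebraMap k L (c j) * y j) ≤ A * B := by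
    intro j _
    rw [h.mul, h.ext]
    exact mul_le_mul (hc j) (hy j) (N_nonneg_u64 h v _) hA
  rcases v with v | v
  · have h1 := sum_le_u64 h (.inl v) Finset.univ _ _ (mul_nonneg hA hB) hterm
    have h2 : Real.exp (lc_u64 k (Fintype.card τ) (.inl v)) = 4 ^ (Fintype.card τ) := by
      show Real.exp ((Fintype.card τ : ℝ) * Real.log 4) = _
      rw [← Real.log_pow, Real.exp_log (by positivity)]
    rw [h2, ← Finset.card_univ]
    exact h1
  · have h1 := sum_le_inr_u64 h v Finset.univ _ _ (mul_nonneg hA hB) hterm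
    have h2 : Real.exp (lc_u64 k (Fintype.card τ) (.inr v)) = 1 := Real.exp_zero
    rw [h2, one_mul]
    exact h1

private theorem aeval_tfrm_u64 {L : Type u} [Field L] [Algebra k L] {N d q : ℕ} (c : Fin q × Mns N d → k) (i : Fin q)
    (x : Fin (N + 1) → L) :
    aeval x (tfrm c i) = ∑ μ : Mns N d, algebraMap k L (c (i, μ)) * ∏ j, x j ^ (μ : Fin (N + 1) →₀ ℕ) j := by
  unfold tfrm
  rw [map_sum]
  refine Finset.sum_congr rfl fun μ _ => ?_
  rw [aeval_monomial, Finsupp.prod_fintype _ _ fun j => pow_zero _]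

/-- the forms at a point, uniformly in the coefficients -/
private theorem ev_le_u64 {L : Type u} [Field L] [Algebra k L] {s : G →* (L ≃ₐ[k] L)} {M : Pl k → L → ℝ} (h : QSG s M)
    {N d q : ℕ} {c : Fin q × Mns N d → k} {i : Fin q} (hc : ∃ μ, c (i, μ) = 1) (x : Fin (N + 1) → L) (v : Pl k)
    (hz : aeval x (tfrm c i) ≠ 0) :
    Real.log (M v (aeval x (tfrm c i))) ≤
      d * Real.log (mxn (M v) x) + (lc_u64 k (Fintype.card (Mns N d)) v +
        Real.log (mxn (nv v) fun μ : Mns N d => c (i, μ))) := by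
  have hA : 0 < mxn (nv v) fun μ : Mns N d => c (i, μ) := one_pos.trans_le (mxn_one_le hc v)
  have h1 : M v (aeval x (tfrm c i)) ≤
      Real.exp (lc_u64 k (Fintype.card (Mns N d)) v) * ((mxn (nv v) fun μ : Mns N d => c (i, μ)) * mxn (M v) x ^ d) := by
    rw [aeval_tfrm_u64]
    refine comb_le_u64 h _ hA.le (fun μ : Mns N d => c (i, μ))
      (fun μ : Mns N d => ∏ j, x j ^ (μ : Fin (N + 1) →₀ ℕ) j) v (fun μ => le_mxk_u64 c i v μ) _
      (pow_nonneg (mxn_nonneg_u64 h v x) d) fun μ => ?_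
    have h2 : ∑ j, (μ : Fin (N + 1) →₀ ℕ) j = d := (Finset.mem_finsuppAntidiag.1 μ.2).1
    show M v (∏ j, x j ^ (μ : Fin (N + 1) →₀ ℕ) j) ≤ mxn (M v) x ^ d
    rw [N_prod_u64 h]
    conv_rhs => rw [← h2, ← Finset.prod_pow_eq_pow_sum]
    refine Finset.prod_le_prod (fun j _ => N_nonneg_u64 h v _) fun j _ => ?_
    rw [N_pow_u64 h]
    exact pow_le_pow_left₀ (N_nonneg_u64 h v _) (le_mxn_u64 h v x j) _
  have h2 := h.pos v _ hz
  have h3 := Real.log_le_log h2 h1
  have h4 : mxn (M v) x ^ d ≠ 0 := by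
    intro h5
    rw [h5, mul_zero, mul_zero] at h1
    linarith
  rw [Real.log_mul (Real.exp_pos _).ne' (mul_ne_zero hA.ne' h4), Real.log_exp,
    Real.log_mul hA.ne' h4, Real.log_pow] at h3
  linarith

end

/-- the local values are bounded below, uniformly in the coefficients -/
theorem gam_ge_u (G : Type) [Group G] [Fintype G] (k : Type u) [Field k] [NumberField k] (N d q : ℕ) : ∃ C : ℝ, 0 ≤ C ∧
    ∀ (L : Type u) [Field L] [Algebra k L] (s : G →* (L ≃ₐ[k] L)) (M : Pl k → L → ℝ), QSG s M →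
      ∀ (c : Fin q × Mns N d → k) (i : Fin q), (∃ μ, c (i, μ) = 1) → ∀ (y : Fin (N + 1) → L),
        aeval y (tfrm c i) ≠ 0 → ∀ v g,
        -(C + Real.log (mxn (nv v) fun μ : Mns N d => c (i, μ))) ≤ gam s M y d (tfrm c i) v g := by
  refine ⟨gsum (lc_u64 k (Fintype.card (Mns N d))), gsum_nonneg (K := k) (lc_nonneg_u64 (k := k) (Fintype.card (Mns N d))), ?_⟩
  intro L _ _ s M h c i hc y hz v g
  have hs : s g (aeval y (tfrm c i)) = aeval (fun j => s g (y j)) (tfrm c i) := aeval_s63 (s g) y _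
  have h1 := ev_le_u64 h hc (fun j => s g (y j)) v (by rw [← hs]; simpa using hz)
  rw [← hs] at h1
  have h2 := sum_le_gsum (lc_finS_u64 (k := k) (Fintype.card (Mns N d))) (lc_nonneg_u64 _) {v}
  rw [Finset.sum_singleton] at h2
  unfold gam
  linarith

/-- the inequality of Liouville, uniformly in the coefficients -/
theorem gam_sum_u (G : Type) [Group G] [Fintype G] (k : Type u) [Field k] [NumberField k] (N d q : ℕ) : ∃ C : ℝ, 0 ≤ C ∧
    ∀ (L : Type u) [Field L] [Algebra k L] (s : G →* (L ≃ₐ[k] L)) (M : Pl k → L → ℝ), QSG s M →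
      ∀ (c : Fin q × Mns N d → k) (i : Fin q), (∃ μ, c (i, μ) = 1) → ∀ (y : Fin (N + 1) → L), (∃ j, y j = 1) →
        aeval y (tfrm c i) ≠ 0 → ∀ P : Finset (Pl k),
        ∑ v ∈ P, ∑ g, gam s M y d (tfrm c i) v g ≤ d * Hg s M y + Fintype.card G * hcf c i + C := by
  refine ⟨Fintype.card G * gsum (lc_u64 k (Fintype.card (Mns N d))), mul_nonneg (Nat.cast_nonneg _)
    (gsum_nonneg (K := k) (lc_nonneg_u64 (k := k) (Fintype.card (Mns N d)))), ?_⟩
  intro L _ _ s M h c i hc x hx hz P
  obtain ⟨a, ha⟩ := hx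
  have ha' : ∀ g, s g (x a) = 1 := fun g => by rw [ha, map_one]
  have hlb := finS_mxk_u64 hc
  have hlb0 := logmx_nonneg_u64 hc
  set lb : Pl k → ℝ := fun v => Real.log (mxn (nv v) fun μ : Mns N d => c (i, μ)) with hlbd
  set C : Pl k → ℝ := fun v => lc_u64 k (Fintype.card (Mns N d)) v + lb v with hC
  have hCf : FinS C := (lc_finS_u64 _).add hlb
  have hC0 : ∀ v, 0 ≤ C v := fun v => add_nonneg (lc_nonneg_u64 _ v) (hlb0 v)
  have hs : ∀ g, s g (aeval x (tfrm c i)) = aeval (fun j => s g (x j)) (tfrm c i) := fun g => aeval_s63 (s g) x _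
  have hs0 : ∀ g, s g (aeval x (tfrm c i)) ≠ 0 := fun g => by simpa using hz
  have f1 : FinS fun v => ∑ g, Real.log (mxn (M v) fun j => s g (x j)) :=
    FinS.sum _ fun g _ => finS_mxn_u64 h (fun j => s g (x j)) a (ha' g)
  have f2 : FinS fun v => ∑ g, Real.log (M v (s g (aeval x (tfrm c i)))) := FinS.sum _ fun g _ => h.fin _ (hs0 g)
  have f3 := hCf.const_mul (Fintype.card G : ℝ)
  have f4 := f1.const_mul (d : ℝ)
  have hg : ∀ g v, Real.log (M v (s g (aeval x (tfrm c i)))) ≤ d * Real.log (mxn (M v) fun j => s g (x j)) + C v := by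
    intro g v
    have h1 := ev_le_u64 h hc (fun j => s g (x j)) v (by rw [← hs g]; exact hs0 g)
    rwa [← hs g] at h1
  have hid : ∀ v, (∑ g, (d * Real.log (mxn (M v) fun j => s g (x j)) + C v - Real.log (M v (s g (aeval x (tfrm c i)))))) =
      (d * (∑ g, Real.log (mxn (M v) fun j => s g (x j))) + (Fintype.card G : ℝ) * C v) +
      -(∑ g, Real.log (M v (s g (aeval x (tfrm c i))))) := by
    intro v
    rw [Finset.sum_sub_distrib, Finset.sum_add_distrib, ← Finset.mul_sum, Finset.sum_const, Finset.card_univ, nsmul_eq_mul]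
    ring
  have hnn : ∀ v, 0 ≤ (d * (∑ g, Real.log (mxn (M v) fun j => s g (x j))) + (Fintype.card G : ℝ) * C v) +
      -(∑ g, Real.log (M v (s g (aeval x (tfrm c i))))) := by
    intro v
    rw [← hid v]
    refine Finset.sum_nonneg fun g _ => ?_
    have := hg g v
    linarith
  have h3 := sum_le_gsum ((f4.add f3).add f2.neg) hnn P
  rw [gsum_add (f4.add f3) f2.neg, gsum_add f4 f3, gsum_neg, h.prod _ hz, neg_zero, add_zero, gsum_const_mul,
    gsum_const_mul, hC, gsum_add (lc_finS_u64 _) hlb] at h3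
  have e1 : Hg s M x = gsum fun v => ∑ g, Real.log (mxn (M v) fun j => s g (x j)) := rfl
  have e2 : hcf c i = gsum lb := rfl
  rw [e1, e2]
  have h5 : ∑ v ∈ P, ∑ g, gam s M x d (tfrm c i) v g ≤ ∑ v ∈ P, ((d * (∑ g, Real.log (mxn (M v) fun j => s g (x j))) +
      (Fintype.card G : ℝ) * C v) + -(∑ g, Real.log (M v (s g (aeval x (tfrm c i)))))) := by
    refine Finset.sum_le_sum fun v _ => ?_
    rw [← hid v]
    refine Finset.sum_le_sum fun g _ => ?_
    have := hC0 v
    unfold gam
    linarith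
  refine (h5.trans h3).trans ?_
  linarith

end Pool.Agent.SQ
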