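import Pool.Agent.Helper61.BU.NL
import Pool.Agent.Helper21.BU.Bas1
import Pool.Agent.Helper21.BU.Bas2
import Pool.Agent.Helper67.SQ4.EFXq

/-!
# Sections of bounded degree, uniformly, block BU4: families of products, uniformly
-/

set_option autoImplicit false

namespace Pool.Agent.SQ

open NumberField Filter Module MvPolynomial

universe u

/-- exchange, one vector at a time -/
private theorem exch64 {k V : Type*} [Field k] [AddCommGroup V] [Module k V] {ι : Type*} [Finite ι] (v : ι → V)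
    (hv : LinearIndependent k v) (S : ι → Set V) (hS : ∀ t, v t ∈ Submodule.span k (S t)) :
    ∃ s : ι → V, (∀ t, s t ∈ S t) ∧ LinearIndependent k s := by
  classical
  have := Fintype.ofFinite ι
  have h0 : ∀ T : Finset ι, ∃ s : ι → V, (∀ t ∈ T, s t ∈ S t) ∧ (∀ t ∉ T, s t = v t) ∧ LinearIndependent k s := by
    intro T
    induction T using Finset.induction_on with
    | empty => exact ⟨v, fun t ht => absurd ht (Finset.notMem_empty _), fun t _ => rfl, hv⟩
    | insert t0 T ht0 ih =>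
      obtain ⟨s, h1, h2, h3⟩ := ih
      have h4 : ∃ w ∈ S t0, w ∉ Submodule.span k (s '' {t0}ᶜ) := by
        by_contra h
        push Not at h
        have h5 : Submodule.span k (S t0) ≤ Submodule.span k (s '' {t0}ᶜ) := Submodule.span_le.2 h
        refine h3.notMem_span t0 (h5 ?_)
        rw [h2 t0 ht0]
        exact hS t0
      obtain ⟨w, hw, hw'⟩ := h4
      refine ⟨Function.update s t0 w, fun t ht => ?_, fun t ht => ?_, ?_⟩
      · by_cases htt : t = t0
        · subst htt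
          rwa [Function.update_self]
        · rw [Function.update_of_ne htt]
          exact h1 t (Finset.mem_of_mem_insert_of_ne ht htt)
      · rw [Finset.mem_insert, not_or] at ht
        rw [Function.update_of_ne ht.1]
        exact h2 t ht.2
      · have h6 : Set.EqOn (Function.update s t0 w) s ({t0}ᶜ : Set ι) := fun t ht => Function.update_of_ne ht _ _
        have h7 : LinearIndepOn k (Function.update s t0 w) ({t0}ᶜ : Set ι) := by
          refine LinearIndepOn.congr (v := s) ?_ h6.symm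
          exact h3.linearIndepOn _
        have h8 : LinearIndepOn k (Function.update s t0 w) (insert t0 ({t0}ᶜ : Set ι)) := by
          refine h7.insert ?_
          rw [Function.update_self, Set.image_congr h6]
          exact hw'
        have h9 : insert t0 ({t0}ᶜ : Set ι) = Set.univ := by
          ext t
          by_cases h : t = t0 <;> simp [h]
        rw [h9] at h8
        exact linearIndepOn_univ_iff.1 h8
  obtain ⟨s, h1, -, h3⟩ := h0 Finset.univ
  exact ⟨s, fun t => h1 t (Finset.mem_univ _), h3⟩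

/-- one family, with monomials -/
private theorem one64 {k : Type u} [Field k] {N n d : ℕ} (hd : 0 < d) (I : Ideal (MvPolynomial (Fin (N + 1)) k)) [I.IsPrime]
    (hI : ∀ p ∈ I, ∀ m, homogeneousComponent m p ∈ I)
    (hdim : Algebra.trdeg k (MvPolynomial (Fin (N + 1)) k ⧸ I) = n + 1)
    (f : Fin (n + 1) → MvPolynomial (Fin (N + 1)) k) (hf : ∀ i, (f i).IsHomogeneous d) {θ : ℝ} (hθ : 0 ≤ θ) (hθ1 : θ ≤ 1)
    {ε : ℝ} (hε : 0 < ε) :
    ∀ᶠ m : ℕ in atTop, ∃ φ : Fml n N, φ.deg d m ∧ (LinearIndependent k fun t => Ideal.Quotient.mk I (φ.pol f t)) ∧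
      ((∃ M, ∀ l, (X l : MvPolynomial (Fin (N + 1)) k) ^ M ∈ I ⊔ Ideal.span (Set.range f)) →
        ∀ i, (1 - ε) * (m * Eq n θ) * hilb I (d * m) ≤ ∑ t, min (θ * m) (φ.α t i : ℝ)) := by
  classical
  by_cases hj : ∃ M, ∀ l, (X l : MvPolynomial (Fin (N + 1)) k) ^ M ∈ I ⊔ Ideal.span (Set.range f)
  · obtain ⟨m0, hm0⟩ := efx_q hd I hI hdim f hf hj hθ hθ1 hε
    refine (eventually_ge_atTop m0).mono fun m hm => ?_
    obtain ⟨R, α, β, b, h1, h2, h3, h4⟩ := hm0 m hm
    let S : Fin R → Set (MvPolynomial (Fin (N + 1)) k ⧸ I) := fun t =>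
      {z | ∃ μ : Fin (N + 1) →₀ ℕ, ∑ j, μ j = d * β t ∧ z = Ideal.Quotient.mk I ((∏ i, f i ^ α t i) * monomial μ 1)}
    have hS : ∀ t, Ideal.Quotient.mk I ((∏ i, f i ^ α t i) * b t) ∈ Submodule.span k (S t) := by
      intro t
      have h5 : (∏ i, f i ^ α t i) * b t = ∑ μ ∈ (b t).support, coeff μ (b t) • ((∏ i, f i ^ α t i) * monomial μ 1) := by
        conv_lhs => rw [(b t).as_sum]
        rw [Finset.mul_sum]
        refine Finset.sum_congr rfl fun μ _ => ?_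
        rw [← mul_smul_comm, smul_monomial, smul_eq_mul, mul_one]
      rw [h5, map_sum]
      refine Submodule.sum_mem _ fun μ hμ => ?_
      have h6 : Ideal.Quotient.mk I (coeff μ (b t) • ((∏ i, f i ^ α t i) * monomial μ 1)) =
          coeff μ (b t) • Ideal.Quotient.mk I ((∏ i, f i ^ α t i) * monomial μ 1) :=
        map_smul (Ideal.Quotient.mkₐ k I) _ _
      rw [h6]
      refine Submodule.smul_mem _ _ (Submodule.subset_span ⟨μ, ?_, rfl⟩)
      have h7 := h2 t (mem_support_iff.1 hμ)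
      rw [Finsupp.weight_apply] at h7
      rw [← h7, Finsupp.sum_fintype _ _ (fun _ => by simp)]
      exact Finset.sum_congr rfl fun j _ => by simp
    obtain ⟨s, hs, hs'⟩ := exch64 _ h3 S hS
    choose μ hμ hsμ using hs
    refine ⟨⟨R, α, μ⟩, fun t => ?_, ?_, fun _ => h4⟩
    · show d * ∑ i, α t i + ∑ j, μ t j = d * m
      rw [hμ, ← mul_add, h1]
    · have h8 : s = fun t => Ideal.Quotient.mk I ((∏ i, f i ^ α t i) * monomial (μ t) 1) := funext hsμ
      rw [h8] at hs'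
      exact hs'
  · exact Eventually.of_forall fun m => ⟨⟨0, Fin.elim0, Fin.elim0⟩, fun t => t.elim0, linearIndependent_empty_type, fun h => absurd h hj⟩

theorem efx_u {k : Type u} [Field k] {N n d q : ℕ} (hd : 0 < d) (I : Ideal (MvPolynomial (Fin (N + 1)) k)) [I.IsPrime]
    (hI : ∀ p ∈ I, ∀ m, homogeneousComponent m p ∈ I)
    (hdim : Algebra.trdeg k (MvPolynomial (Fin (N + 1)) k ⧸ I) = n + 1) {Ξ : Type} [Finite Ξ] (θ : Ξ → ℝ)
    (hθ : ∀ x, 0 ≤ θ x) (hθ1 : ∀ x, θ x ≤ 1) {ε : ℝ} (hε : 0 < ε) :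
    ∃ Φ : Finset (ℕ × (Ξ × (Fin (n + 1) → Fin q) → Fml n N)), (∀ φ ∈ Φ, 0 < φ.1 ∧ ∀ z, (φ.2 z).deg d φ.1) ∧
      ∀ c : Fin q × Mns N d → k, ∃ φ ∈ Φ,
        (∀ z, LinearIndependent k fun t => Ideal.Quotient.mk I ((φ.2 z).pol (fun i => tfrm c (z.2 i)) t)) ∧
        ∀ z : Ξ × (Fin (n + 1) → Fin q),
          (∃ M, ∀ l, (X l : MvPolynomial (Fin (N + 1)) k) ^ M ∈ I ⊔ Ideal.span (Set.range fun i => tfrm c (z.2 i))) →
          ∀ i, (1 - ε) * (φ.1 * Eq n (θ z.1)) * hilb I (d * φ.1) ≤ ∑ t, min (θ z.1 * φ.1) ((φ.2 z).α t i : ℝ) := by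
  classical
  have := Fintype.ofFinite Ξ
  -- the condition of independence is open
  have hopen : ∀ (φ : ℕ × (Ξ × (Fin (n + 1) → Fin q) → Fml n N)), (∀ z, (φ.2 z).deg d φ.1) → ∀ c : Fin q × Mns N d → k,
      (∀ z, LinearIndependent k fun t => Ideal.Quotient.mk I ((φ.2 z).pol (fun i => tfrm c (z.2 i)) t)) →
      ∃ Δ : MvPolynomial (Fin q × Mns N d) k, aeval c Δ ≠ 0 ∧ ∀ c' : Fin q × Mns N d → k, aeval c' Δ ≠ 0 →
        ∀ z, LinearIndependent k fun t => Ideal.Quotient.mk I ((φ.2 z).pol (fun i => tfrm c' (z.2 i)) t) := by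
    intro φ hφ c hc
    obtain ⟨𝔅⟩ := exists_bas I (d * φ.1)
    have h1 : ∀ z, ∃ Δ : MvPolynomial (Fin q × Mns N d) k, aeval c Δ ≠ 0 ∧ ∀ c' : Fin q × Mns N d → k, aeval c' Δ ≠ 0 →
        LinearIndependent k fun t => Ideal.Quotient.mk I ((φ.2 z).pol (fun i => tfrm c' (z.2 i)) t) := by
      intro z
      have hph : ∀ c' : Fin q × Mns N d → k, ∀ t, ((φ.2 z).pol (fun i => tfrm c' (z.2 i)) t).IsHomogeneous (d * φ.1) :=
        fun c' t => pol_hom (φ.2 z) (hφ z) _ (fun i => tfrm_hom c' (z.2 i)) t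
      have h0 : ∀ t b, ∃ Ψ : MvPolynomial (Fin q × Mns N d) k, ∀ c' : Fin q × Mns N d → k,
          aeval c' Ψ = 𝔅.crd ((φ.2 z).pol (fun i => tfrm c' (z.2 i)) t) b := by
        intro t b
        obtain ⟨Ψ, hΨ⟩ := Bas.exists_psi (d := d) 𝔅 (φ.2 z) z.2 t b
        exact ⟨Ψ, fun c' => hΨ (R := k) c'⟩
      choose Ψ hΨ using h0
      have h2 : ∀ c' : Fin q × Mns N d → k, (fun t => 𝔅.crd ((φ.2 z).pol (fun i => tfrm c' (z.2 i)) t)) =
          fun t b => aeval c' (Ψ t b) := by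
        intro c'
        funext t b
        exact (hΨ t b c').symm
      have h3 := (𝔅.crd_li _ (hph c)).1 (hc z)
      rw [h2 c] at h3
      obtain ⟨Δ, h4, h5⟩ := op_li Ψ c h3
      refine ⟨Δ, h4, fun c' hc' => (𝔅.crd_li _ (hph c')).2 ?_⟩
      rw [h2 c']
      exact h5 c' hc'
    choose Δ h4 h5 using h1
    refine ⟨∏ z, Δ z, ?_, fun c' hc' z => h5 z c' ?_⟩
    · rw [map_prod]
      exact Finset.prod_ne_zero_iff.2 fun z _ => h4 z
    · rw [map_prod] at hc'
      exact Finset.prod_ne_zero_iff.1 hc' z (Finset.mem_univ _)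
  -- the data with the estimates for a given set of indices
  let P : Set (Ξ × (Fin (n + 1) → Fin q)) → (ℕ × (Ξ × (Fin (n + 1) → Fin q) → Fml n N)) → Prop := fun Z φ =>
    0 < φ.1 ∧ (∀ z, (φ.2 z).deg d φ.1) ∧ ∀ z ∈ Z, ∀ i,
      (1 - ε) * (φ.1 * Eq n (θ z.1)) * hilb I (d * φ.1) ≤ ∑ t, min (θ z.1 * φ.1) ((φ.2 z).α t i : ℝ)
  have hfin : ∀ Z : Set (Ξ × (Fin (n + 1) → Fin q)), ∃ S : Finset {φ // P Z φ}, ∀ φ : {φ // P Z φ},
      ∀ c : Fin q × Mns N d → k,
      (∀ z, LinearIndependent k fun t => Ideal.Quotient.mk I ((φ.1.2 z).pol (fun i => tfrm c (z.2 i)) t)) →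
      ∃ φ' ∈ S, ∀ z, LinearIndependent k fun t => Ideal.Quotient.mk I ((φ'.1.2 z).pol (fun i => tfrm c (z.2 i)) t) := by
    intro Z
    exact nl (fun φ : {φ // P Z φ} => {c : Fin q × Mns N d → k |
      ∀ z, LinearIndependent k fun t => Ideal.Quotient.mk I ((φ.1.2 z).pol (fun i => tfrm c (z.2 i)) t)})
      fun φ c hc => hopen φ.1 φ.2.2.1 c hc
  choose S hS using hfin
  refine ⟨Finset.univ.biUnion fun Z => (S Z).image Subtype.val, fun φ hφ => ?_, fun c => ?_⟩
  · rw [Finset.mem_biUnion] at hφ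
    obtain ⟨Z, -, hZ⟩ := hφ
    rw [Finset.mem_image] at hZ
    obtain ⟨φ', -, rfl⟩ := hZ
    exact ⟨φ'.2.1, φ'.2.2.1⟩
  · have h1 := fun z : Ξ × (Fin (n + 1) → Fin q) => one64 hd I hI hdim (fun i => tfrm c (z.2 i)) (fun i => tfrm_hom c (z.2 i))
      (hθ z.1) (hθ1 z.1) hε
    obtain ⟨m, h2, hm⟩ := ((Filter.eventually_all.2 h1).and (eventually_gt_atTop 0)).exists
    choose φ hφ1 hφ2 hφ3 using h2
    let Z : Set (Ξ × (Fin (n + 1) → Fin q)) := {z | ∃ M, ∀ l, (X l : MvPolynomial (Fin (N + 1)) k) ^ M ∈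
      I ⊔ Ideal.span (Set.range fun i => tfrm c (z.2 i))}
    obtain ⟨φ', h3, h4⟩ := hS Z ⟨(m, φ), hm, hφ1, fun z hz => hφ3 z hz⟩ c hφ2
    refine ⟨φ'.1, Finset.mem_biUnion.2 ⟨Z, Finset.mem_univ _, Finset.mem_image.2 ⟨φ', h3, rfl⟩⟩, h4, fun z hz => φ'.2.2.2 z hz⟩

end Pool.Agent.SQ
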